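import Pool.Agent.P.MP_365d4e_co.UDefs
import Pool.Agent.P.MP_365d4e_co.Exact

namespace Pool.Agent.Results.MP_365d4e_co.Octagon

open Set Filter MeasureTheory Metric Pool.Agent.P.MP_365d4e_co Pool.Agent.P.MP_365d4e_co.U

theorem result :
    (IsCompact octagon ∧ Convex ℝ octagon ∧ (interior octagon).Nonempty) ∧
      IsGreatest {d | ∃ (ι : Type) (A : ι → Set E), IsPacking octagon A ∧ density A = d}
        (626825 / 643632) ∧
      ∀ (ι : Type) (A : ι → Set E), IsPacking octagon A → IsUniform A →
        density A < 626825 / 643632 := by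
  let L : ℂ ≃ₗᵢ[ℝ] E := Complex.orthonormalBasisOneI.repr
  let U : ℂ ≃ᵢ E := L.toIsometryEquiv
  have hU0 : U 0 = 0 := L.map_zero
  have hoct : octagon = U '' K := by
    ext x
    obtain ⟨z, rfl⟩ := U.surjective x
    rw [U.injective.mem_set_image, mem_K]
    have : U z = !₂[z.re, z.im] := by
      ext i
      exact congrFun (Complex.orthonormalBasisOneI_repr_apply z) i
    rw [this]
    rfl
  have hvol : ∀ S : Set ℂ, volume (U '' S) = volume S := by
    intro S
    have := L.symm.measurePreserving.measure_preimage_emb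
      L.symm.toHomeomorph.measurableEmbedding S
    rw [← this]
    congr 1
    exact U.toEquiv.image_eq_preimage_symm S
  have hint : ∀ S : Set ℂ, interior (U '' S) = U '' interior S := fun S =>
    (U.toHomeomorph.image_interior S).symm
  have hdj : ∀ S S' : Set ℂ, Disjoint (interior (U '' S)) (interior (U '' S')) ↔
      Disjoint (interior S) (interior S') := fun S S' => by
    rw [hint, hint, Set.disjoint_image_iff U.injective]
  have hdens : ∀ {ι : Type} (e : ι → Iso),
      (Pairwise fun i j => Disjoint (interior (e i '' K)) (interior (e j '' K))) →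
      density (fun i => U '' (e i '' K)) = dens (⋃ i, e i '' K) := by
    intro ι e hd
    unfold density dens
    congr 1
    funext R
    rw [← tsum_pack hd, ← hU0, ← U.image_ball, hvol]
    simp only [← image_inter U.injective, hvol]
  have down : ∀ {ι : Type} {S : Set ℂ} {A : ι → Set E}, IsPacking (U '' S) A →
      ∃ e : ι → Iso, A = (fun i => U '' (e i '' S)) ∧
        Pairwise fun i j => Disjoint (interior (e i '' S)) (interior (e j '' S)) := by
    intro ι S A ⟨h1, h2⟩
    choose e he using h1
    have : A = fun i => U '' (((U.trans (e i)).trans U.symm : Iso) '' S) := by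
      funext i
      rw [he]
      simp only [image_image]
      simp
    refine ⟨_, this, fun i j hij => ?_⟩
    have h3 := h2 hij
    rw [this] at h3
    exact (hdj _ _).1 h3
  rw [hoct]
  refine ⟨⟨isCompact_K.image U.continuous, convex_K.linear_image L.toLinearEquiv.toLinearMap,
    by rw [hint, interior_K]; exact ⟨_, o, o_mem_Ko, rfl⟩⟩, ⟨?_, ?_⟩, ?_⟩
  · obtain ⟨g, hg, hgd⟩ := packC
    refine ⟨ℕ, fun i => U '' (g i '' K), ⟨fun i => ⟨(U.symm.trans (g i)).trans U, ?_⟩,
      fun i j hij => (hdj _ _).2 (hg hij)⟩, ?_⟩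
    · simp only [image_image]
      simp
    · rw [hdens g hg]
      exact le_antisymm (upper hg) (cval ▸ hgd)
  · rintro _ ⟨ι, A, hA, rfl⟩
    obtain ⟨e, rfl, hd⟩ := down hA
    rw [hdens e hd]
    exact upper hd
  · rintro ι A hA ⟨T, B, hT, hB, hcov, hsub⟩
    obtain ⟨T, rfl⟩ := U.surjective.image_surjective T
    obtain ⟨e, rfl, hd⟩ := down hA
    obtain ⟨f, rfl, hf⟩ := down hB
    rw [hdens e hd]
    refine strict hd (U.toHomeomorph.isCompact_image.1 hT) (fun z => ?_) hf fun i =>
      (image_subset_image_iff U.injective).1 (hsub i)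
    have : U z ∈ ⋃ i, U '' (f i '' T) := hcov ▸ mem_univ _
    obtain ⟨i, hi⟩ := mem_iUnion.1 this
    exact ⟨i, U.injective.mem_set_image.1 hi⟩

end Pool.Agent.Results.MP_365d4e_co.Octagon
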